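import Pool.Agent.Helper10.Fam.Stmts

/-!
# MP_8410ab_nt, family project, module LSTA: elementary properties of the list functions
-/

set_option autoImplicit false

namespace Pool.Agent.Helper10.Fam

theorem lsta_fn_cons (b : ℕ) (t : List ℕ) : (fun i => fn (b :: t) (i + 1)) = fn t := by
  funext i
  simp [fn]

theorem lsta_fn_zero (b : ℕ) (t : List ℕ) : fn (b :: t) 0 = (b : ℝ) := by
  simp [fn]

theorem lsta_fn_nil (i : ℕ) : fn [] i = 0 := by
  simp [fn]

theorem lsta_dx_zero (a : List ℕ) (x : ℕ → ℝ) (hx : ∀ i, x i = 0) : dx a x = 0 := by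
  induction a generalizing x with
  | nil => rfl
  | cons a s ih => simp [dx, hx 0, ih (fun i => x (i + 1)) (fun i => hx (i + 1))]

theorem lsta_dn_eq (a b : List ℕ) : ((dn a b : ℕ) : ℝ) = dx a (fn b) := by
  induction a generalizing b with
  | nil => simp [dn, dx]
  | cons a s ih =>
    cases b with
    | nil =>
      rw [lsta_dx_zero _ _ lsta_fn_nil]
      simp [dn]
    | cons b t =>
      simp only [dn, dx, lsta_fn_cons, lsta_fn_zero]
      push_cast
      rw [ih t]

theorem lsta_dn_comm (a b : List ℕ) : dn a b = dn b a := by
  induction a generalizing b with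
  | nil => cases b <;> simp [dn]
  | cons a s ih =>
    cases b with
    | nil => simp [dn]
    | cons b t => simp only [dn, ih t, Nat.mul_comm a b]

theorem lsta_dx_add (a : List ℕ) (x y : ℕ → ℝ) :
    dx a (fun i => x i + y i) = dx a x + dx a y := by
  induction a generalizing x y with
  | nil => simp [dx]
  | cons a s ih =>
    simp only [dx]
    rw [ih (fun i => x (i + 1)) (fun i => y (i + 1))]
    ring

theorem lsta_dx_smul (a : List ℕ) (k : ℝ) (x : ℕ → ℝ) :
    dx a (fun i => k * x i) = k * dx a x := by
  induction a generalizing x with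
  | nil => simp [dx]
  | cons a s ih =>
    simp only [dx]
    rw [ih (fun i => x (i + 1))]
    ring

theorem lsta_dx_nonneg (a : List ℕ) (x : ℕ → ℝ) (hx : ∀ i, 0 ≤ x i) : 0 ≤ dx a x := by
  induction a generalizing x with
  | nil => simp [dx]
  | cons a s ih =>
    simp only [dx]
    exact add_nonneg (mul_nonneg (Nat.cast_nonneg a) (hx 0)) (ih _ (fun i => hx (i + 1)))

theorem lsta_dx_ax (k : ℕ) (a b : List ℕ) (x : ℕ → ℝ) (h : a.length = b.length) :
    dx (ax k a b) x = k * dx a x + dx b x := by
  induction a generalizing b x with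
  | nil =>
    cases b with
    | nil => simp [dx, ax]
    | cons b t => simp at h
  | cons a s ih =>
    cases b with
    | nil => simp at h
    | cons b t =>
      simp only [ax, dx]
      rw [ih t (fun i => x (i + 1)) (by simpa using h)]
      push_cast
      ring

theorem lsta_len_ax (k : ℕ) (a b : List ℕ) (h : a.length = b.length) :
    (ax k a b).length = b.length := by
  induction a generalizing b with
  | nil =>
    cases b with
    | nil => simp [ax]
    | cons b t => simp at h
  | cons a s ih =>
    cases b with
    | nil => simp at h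
    | cons b t =>
      simp only [ax, List.length_cons]
      rw [ih t (by simpa using h)]

theorem lsta_dx_range (a : List ℕ) (N : ℕ) (x : ℕ → ℝ) (h : a.length = N) :
    dx a x = ∑ i ∈ Finset.range N, fn a i * x i := by
  induction a generalizing N x with
  | nil =>
    subst h
    simp [dx]
  | cons a s ih =>
    subst h
    rw [List.length_cons, Finset.sum_range_succ']
    simp only [dx]
    rw [ih s.length (fun i => x (i + 1)) rfl, add_comm, lsta_fn_zero]
    congr 1

theorem st_LSTA : ST_LSTA where
  dn_eq := lsta_dn_eq
  dn_comm := lsta_dn_comm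
  dx_add := lsta_dx_add
  dx_smul := lsta_dx_smul
  dx_nonneg := lsta_dx_nonneg
  dx_ax := lsta_dx_ax
  len_ax := lsta_len_ax
  dx_range := lsta_dx_range

end Pool.Agent.Helper10.Fam
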